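import Pool.Agent.P.MP_2677b3_gt.Main

open UpperHalfPlane

namespace Pool.Agent.Results.MP_2677b3_gt.CoarseDimOne

open Pool.Agent.MC

/-- Let `X = ℍ / GX` be a closed hyperbolic surface of genus two.  Every `ε`-thick closed
hyperbolic surface `Y = ℍ / GY` that is one-dimensional at scale `(r, L)` is `K`-quasiconformally
equivalent to a finite unramified cover `ℍ / Λ` of `X`, with `K` depending only on
`X, ε, r, L`. -/
theorem result (GX : Subgroup (Equiv.Perm ℍ)) (εX : ℝ) (hεX : 0 < εX) (hX : Fuchs GX εX)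
    (hg : Nonempty (GX ≃* Pi2)) (ε r L : ℝ) (hε : 0 < ε) (hr : 0 < r) :
    ∃ K : ℝ, ∀ GY : Subgroup (Equiv.Perm ℍ), Fuchs GY ε → DimOne GY r L →
      ∃ Λ : Subgroup (Equiv.Perm ℍ), Λ ≤ GX ∧ Λ.relIndex GX ≠ 0 ∧ ∃ F : ℍ ≃ₜ ℍ, IsQC K F ∧
        (∀ γ ∈ GY, ∃ g ∈ Λ, ∀ z, F (γ z) = g (F z)) ∧
        (∀ g ∈ Λ, ∃ γ ∈ GY, ∀ z, F (γ z) = g (F z)) :=
  main GX εX hεX hX hg ε r L hε hr

end Pool.Agent.Results.MP_2677b3_gt.CoarseDimOne
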