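import Pool.Agent.P.MP_2677b3_gt.QcH

open UpperHalfPlane

namespace Pool.Agent.Results.MP_2677b3_gt.HandleDenseQC

open Pool.Agent.MC

/-- Let `X = ℍ / GX` be a closed hyperbolic surface of genus two.  Every `ε`-thick closed
hyperbolic surface `Y = ℍ / GY` all of whose balls of radius `R` carry a handle is
`K`-quasiconformally equivalent to a finite unramified cover `ℍ / Λ` of `X`, with `K` depending
only on `X`, `ε` and `R`. -/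
theorem result (GX : Subgroup (Equiv.Perm ℍ)) (εX : ℝ) (hεX : 0 < εX) (hX : Fuchs GX εX)
    (hg : Nonempty (GX ≃* Pi2)) (ε : ℝ) (hε : 0 < ε) (R : ℝ) :
    ∃ K : ℝ, ∀ GY : Subgroup (Equiv.Perm ℍ), Fuchs GY ε → (∀ z, HandleAt GY R z) →
      ∃ Λ : Subgroup (Equiv.Perm ℍ), Λ ≤ GX ∧ Λ.relIndex GX ≠ 0 ∧ ∃ F : ℍ ≃ₜ ℍ, IsQC K F ∧
        (∀ γ ∈ GY, ∃ g ∈ Λ, ∀ z, F (γ z) = g (F z)) ∧
        (∀ g ∈ Λ, ∃ γ ∈ GY, ∀ z, F (γ z) = g (F z)) :=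
  QC.hd_main GX εX hεX hX hg ε hε R

end Pool.Agent.Results.MP_2677b3_gt.HandleDenseQC
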