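import Pool.Agent.P.MP_2677b3_gt.LMain

open UpperHalfPlane

namespace Pool.Agent.Results.MP_2677b3_gt.LogLog

open Pool.Agent.MC

/-- Let `X = ℍ / GX` be a closed hyperbolic surface of genus two.  For every `ε`-thick closed
hyperbolic surface `Y = ℍ / GY` of large area `a` there are a finite unramified cover `ℍ / Λ` of `X`
and an isomorphism of fundamental groups that multiplies the extremal length of every free
homotopy class by at most `exp (C (log log a) ^ 4)`, with `C` depending only on `X` and `ε`. -/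
theorem result (GX : Subgroup (Equiv.Perm ℍ)) (εX : ℝ) (hεX : 0 < εX) (hX : Fuchs GX εX)
    (hg : Nonempty (GX ≃* Pi2)) (ε : ℝ) (hε : 0 < ε) :
    ∃ C a₀ : ℝ, ∀ GY : Subgroup (Equiv.Perm ℍ), Fuchs GY ε → ∀ a : ℝ, a₀ ≤ a →
      area GY 1 = ENNReal.ofReal a →
      ∃ Λ : Subgroup (Equiv.Perm ℍ), Λ ≤ GX ∧ Λ.relIndex GX ≠ 0 ∧ ∃ θ : GY ≃* Λ, ∀ γ : GY,
        ext Λ (θ γ).1 ≤ ENNReal.ofReal (Real.exp (C * Real.log (Real.log a) ^ 4)) *
          ext GY γ.1 :=
  LL.main GX εX hεX hX hg ε hε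

end Pool.Agent.Results.MP_2677b3_gt.LogLog
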