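import Pool.Agent.P.MP_2677b3_gt.QcV

open UpperHalfPlane

namespace Pool.Agent.Results.MP_2677b3_gt.VirtualBoundedQC

open Pool.Agent.MC

/-- Let `X = ℍ / GX` be a closed hyperbolic surface of genus two.  Every `ε`-thick closed
hyperbolic surface `Y = ℍ / GY` has an unramified cover `ℍ / G'` of degree at most `84` that is
`K`-quasiconformally equivalent to a finite unramified cover `ℍ / Λ` of `X`, with `K` depending
only on `X` and `ε`. -/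
theorem result (GX : Subgroup (Equiv.Perm ℍ)) (εX : ℝ) (hεX : 0 < εX) (hX : Fuchs GX εX)
    (hg : Nonempty (GX ≃* Pi2)) (ε : ℝ) (hε : 0 < ε) :
    ∃ K : ℝ, ∀ GY : Subgroup (Equiv.Perm ℍ), Fuchs GY ε →
      ∃ G' : Subgroup (Equiv.Perm ℍ), G' ≤ GY ∧ G'.relIndex GY ≠ 0 ∧ G'.relIndex GY ≤ 84 ∧
        ∃ Λ : Subgroup (Equiv.Perm ℍ), Λ ≤ GX ∧ Λ.relIndex GX ≠ 0 ∧ ∃ F : ℍ ≃ₜ ℍ, IsQC K F ∧
          (∀ γ ∈ G', ∃ g ∈ Λ, ∀ z, F (γ z) = g (F z)) ∧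
          (∀ g ∈ Λ, ∃ γ ∈ G', ∀ z, F (γ z) = g (F z)) :=
  QC.vb_main GX εX hεX hX hg ε hε

end Pool.Agent.Results.MP_2677b3_gt.VirtualBoundedQC
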